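import Pool.Agent.W941.RP.Stm

/-!
Project RP (MP_499dc6_lc), part PR: the rank of a diagonal tensor.
-/

set_option autoImplicit false

namespace Pool.Agent.W683.RP

open Pool.Agent.W941.RP

/-- a vector of large support orthogonal to few vectors -/
theorem large_support {N K : Type} [Fintype N] [Fintype K] (φ : K → N → ℂ) :
    ∃ h : N → ℂ, (∀ i, ∑ a, h a * φ i a = 0) ∧
      Fintype.card N ≤ Fintype.card K + Nat.card {a // h a ≠ 0} := by
  classical
  set P : ℕ → Prop := fun n => ∃ h : N → ℂ, (∀ i, ∑ a, h a * φ i a = 0) ∧
    Fintype.card {a // h a ≠ 0} = n with hP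
  have hex : ∃ n, P n := ⟨_, fun _ => 0, by simp, rfl⟩
  have hbd : ∀ n, P n → n ≤ Fintype.card N := by
    rintro n ⟨h, -, rfl⟩
    exact Fintype.card_subtype_le _
  obtain ⟨n, hn, hmax⟩ : ∃ n, P n ∧ ∀ m, P m → m ≤ n := by
    refine ⟨Nat.findGreatest P (Fintype.card N), ?_, ?_⟩
    · obtain ⟨n, hn⟩ := hex
      exact Nat.findGreatest_spec (hbd n hn) hn
    · intro m hm
      exact Nat.le_findGreatest (hbd m hm) hm
  obtain ⟨h, h1, h2⟩ := hn
  refine ⟨h, h1, ?_⟩
  rw [Nat.card_eq_fintype_card]
  by_contra hcon
  rw [not_le] at hcon
  let L : (N → ℂ) →ₗ[ℂ] (K → ℂ) × ({a // h a ≠ 0} → ℂ) :=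
    LinearMap.prod
      { toFun := fun w i => ∑ a, w a * φ i a
        map_add' := fun w w' => by
          funext i
          simp only [Pi.add_apply, add_mul, Finset.sum_add_distrib]
        map_smul' := fun c w => by
          funext i
          simp only [Pi.smul_apply, smul_eq_mul, RingHom.id_apply, Finset.mul_sum, mul_assoc] }
      { toFun := fun w a => w a
        map_add' := fun w w' => rfl
        map_smul' := fun c w => rfl }
  have hker : LinearMap.ker L ≠ ⊥ := by
    apply LinearMap.ker_ne_bot_of_finrank_lt
    rw [Module.finrank_prod, Module.finrank_pi, Module.finrank_pi, Module.finrank_pi]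
    exact hcon
  obtain ⟨w, hw, hw0⟩ := Submodule.exists_mem_ne_zero_of_ne_bot hker
  rw [LinearMap.mem_ker] at hw
  have hwa : ∀ i, ∑ a, w a * φ i a = 0 := fun i => congrFun (congrArg Prod.fst hw) i
  have hwb : ∀ a, h a ≠ 0 → w a = 0 := fun a ha => congrFun (congrArg Prod.snd hw) ⟨a, ha⟩
  obtain ⟨b, hb⟩ : ∃ b, w b ≠ 0 := by
    by_contra hcon'
    push Not at hcon'
    exact hw0 (funext hcon')
  have hb0 : h b = 0 := by
    by_contra hc
    exact hb (hwb b hc)
  have h3 : P (Fintype.card {a // h a + w a ≠ 0}) := ⟨fun a => h a + w a, fun i => by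
    simp only [add_mul, Finset.sum_add_distrib, h1 i, hwa i, add_zero], rfl⟩
  have h4 := hmax _ h3
  rw [← h2] at h4
  have h5 : Fintype.card {a // h a ≠ 0} < Fintype.card {a // h a + w a ≠ 0} := by
    rw [Fintype.card_subtype, Fintype.card_subtype]
    apply Finset.card_lt_card
    rw [Finset.ssubset_iff_of_subset]
    · refine ⟨b, ?_, ?_⟩
      · simp only [Finset.mem_filter, Finset.mem_univ, true_and, hb0, zero_add]
        exact hb
      · simp only [Finset.mem_filter, Finset.mem_univ, true_and, hb0, ne_eq, not_true_eq_false,
          not_false_eq_true]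
    · intro a ha
      simp only [Finset.mem_filter, Finset.mem_univ, true_and] at ha ⊢
      rw [hwb a ha, add_zero]
      exact ha
  omega

theorem pr : PRStmt := by
  intro d
  induction d with
  | zero =>
    intro N κ _ _ f S F G hf hS1 hS2 _ _ hsum
    have hκ : IsEmpty κ := by
      refine ⟨fun i => ?_⟩
      have h1 := hS1 i
      have h2 := hS2 i
      obtain ⟨j, hj⟩ := Finset.nonempty_iff_ne_empty.2 h1
      apply h2
      ext k
      have : k = j := Fin.ext (by omega)
      subst this
      exact ⟨fun _ => Finset.mem_univ _, fun _ => hj⟩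
    have hN : IsEmpty N := by
      refine ⟨fun a => ?_⟩
      have h1 := (hf (fun _ => a)).2 (fun _ _ => rfl)
      rw [hsum] at h1
      simp at h1
    rw [Fintype.card_eq_zero_iff.2 hN]
    exact Nat.zero_le _
  | succ d ih =>
    intro N κ _ _ f S F G hf hS1 hS2 hF hG hsum
    classical
    -- the split functions which separate the coordinate 0
    let K0 : Type := {i : κ // S i = {0} ∨ S i = {0}ᶜ}
    let φ : K0 → N → ℂ := fun i a => if S i = {0} then F i (fun _ => a) else G i (fun _ => a)
    obtain ⟨h, hh, hcard⟩ := large_support φ
    rw [Nat.card_eq_fintype_card] at hcard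
    have hκ : Fintype.card κ = Fintype.card {i : κ // S i = {0} ∨ S i = {0}ᶜ} +
        Fintype.card {i : κ // ¬ (S i = {0} ∨ S i = {0}ᶜ)} := by
      have := Fintype.card_subtype_compl (fun i : κ => S i = {0} ∨ S i = {0}ᶜ)
      have h2 := Fintype.card_subtype_le (fun i : κ => S i = {0} ∨ S i = {0}ᶜ)
      omega
    have hK0 : Fintype.card K0 = Fintype.card {i : κ // S i = {0} ∨ S i = {0}ᶜ} :=
      Fintype.card_congr (Equiv.refl _)
    by_cases hemp : IsEmpty {a // h a ≠ 0}
    · rw [Fintype.card_eq_zero_iff.2 hemp] at hcard
      omega
    rw [not_isEmpty_iff] at hemp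
    obtain ⟨a0⟩ := hemp
    have key : Fintype.card {a // h a ≠ 0} ≤
        Fintype.card {i : κ // ¬ (S i = {0} ∨ S i = {0}ᶜ)} := by
      let cc : N → (Fin (d + 1) → {a // h a ≠ 0}) → (Fin (d + 2) → N) := fun a y =>
        Fin.cons a (fun j => (y j : N))
      have cc0 : ∀ a y, cc a y 0 = a := fun a y => rfl
      have ccs : ∀ a y j, cc a y (Fin.succ j) = y j := fun a y j => rfl
      refine ih {a // h a ≠ 0} {i : κ // ¬ (S i = {0} ∨ S i = {0}ᶜ)}
        (fun y => ∑ a : N, h a * f (cc a y))
        (fun i => Finset.univ.filter (fun j => Fin.succ j ∈ S i))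
        (fun i y => if (0 : Fin (d + 2)) ∈ S i then ∑ a : N, h a * F i (cc a y) else F i (cc a0 y))
        (fun i y => if (0 : Fin (d + 2)) ∈ S i then G i (cc a0 y) else ∑ a : N, h a * G i (cc a y))
        ?_ ?_ ?_ ?_ ?_ ?_
      · intro y
        constructor
        · intro hne
          obtain ⟨a, -, ha⟩ := Finset.exists_ne_zero_of_sum_ne_zero hne
          have h1 : f (cc a y) ≠ 0 := right_ne_zero_of_mul ha
          have h2 := (hf _).1 h1
          intro i j
          have h3 := h2 (Fin.succ i) (Fin.succ j)
          rw [ccs, ccs] at h3
          exact Subtype.ext h3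
        · intro hc
          show ∑ a : N, h a * f (cc a y) ≠ 0
          rw [Finset.sum_eq_single (y 0 : N)]
          · refine mul_ne_zero (y 0).2 ((hf _).2 ?_)
            have h1 : ∀ i, cc (y 0) y i = y 0 := by
              intro i
              refine Fin.cases ?_ (fun j => ?_) i
              · rw [cc0]
              · rw [ccs, hc j 0]
            intro i j
            rw [h1, h1]
          · intro a _ ha
            have h1 : f (cc a y) = 0 := by
              by_contra h2
              have h3 := (hf _).1 h2 0 (Fin.succ 0)
              rw [cc0, ccs] at h3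
              exact ha h3
            rw [h1, mul_zero]
          · intro h1
            exact absurd (Finset.mem_univ _) h1
      · intro i hi
        have hi2 := i.2
        rw [not_or] at hi2
        obtain ⟨j, hj⟩ := Finset.nonempty_iff_ne_empty.2 (hS1 i)
        by_cases h0 : (0 : Fin (d + 2)) ∈ S i
        · have : S i ≠ {0} := hi2.1
          obtain ⟨k, hk, hk0⟩ : ∃ k ∈ S i, k ≠ 0 := by
            by_contra hcon
            push Not at hcon
            apply this
            ext k
            rw [Finset.mem_singleton]
            exact ⟨fun hk => hcon k hk, fun hk => hk ▸ h0⟩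
          obtain ⟨m, rfl⟩ := Fin.exists_succ_eq_of_ne_zero hk0
          have : m ∈ Finset.univ.filter (fun j => Fin.succ j ∈ S i) := by simp [hk]
          rw [hi] at this
          simp at this
        · have hj0 : j ≠ 0 := fun h => h0 (h ▸ hj)
          obtain ⟨m, rfl⟩ := Fin.exists_succ_eq_of_ne_zero hj0
          have : m ∈ Finset.univ.filter (fun j => Fin.succ j ∈ S i) := by simp [hj]
          rw [hi] at this
          simp at this
      · intro i hi
        have hi2 := i.2
        rw [not_or] at hi2
        have hall : ∀ m : Fin (d + 1), Fin.succ m ∈ S i := by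
          intro m
          have : m ∈ Finset.univ.filter (fun j => Fin.succ j ∈ S i) := by
            rw [hi]; exact Finset.mem_univ _
          simpa using this
        by_cases h0 : (0 : Fin (d + 2)) ∈ S i
        · apply hS2 i
          ext k
          refine Fin.cases ?_ (fun j => ?_) k
          · simp [h0]
          · simp [hall j]
        · apply hi2.2
          ext k
          refine Fin.cases ?_ (fun j => ?_) k
          · simp [h0]
          · simp [hall j, Fin.succ_ne_zero]
      · intro i x y hxy
        have hag : ∀ a, ∀ j ∈ S i, cc a x j = cc a y j := by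
          intro a j
          refine Fin.cases ?_ (fun m => ?_) j
          · intro _; rfl
          · intro hm
            rw [ccs, ccs, hxy m (by simp [hm])]
        simp only
        split_ifs
        · exact Finset.sum_congr rfl fun a _ => by rw [hF i _ _ (hag a)]
        · exact hF i _ _ (hag a0)
      · intro i x y hxy
        have hag : ∀ a, ∀ j ∈ (S i)ᶜ, cc a x j = cc a y j := by
          intro a j
          refine Fin.cases ?_ (fun m => ?_) j
          · intro _; rfl
          · intro hm
            rw [ccs, ccs, hxy m (by simpa using hm)]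
        simp only
        split_ifs
        · exact hG i _ _ (hag a0)
        · exact Finset.sum_congr rfl fun a _ => by rw [hG i _ _ (hag a)]
      · intro y
        have e1 : ∑ a : N, h a * f (cc a y) =
            ∑ i : κ, ∑ a : N, h a * (F i (cc a y) * G i (cc a y)) := by
          rw [Finset.sum_comm]
          refine Finset.sum_congr rfl fun a _ => ?_
          rw [hsum, Finset.mul_sum]
        have hK : ∀ i : κ, (S i = {0} ∨ S i = {0}ᶜ) →
            ∑ a : N, h a * (F i (cc a y) * G i (cc a y)) = 0 := by
          intro i hi
          have hhi := hh ⟨i, hi⟩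
          simp only [φ] at hhi
          by_cases h1 : S i = {0}
          · have eF : ∀ a, F i (cc a y) = F i (fun _ => a) := fun a => hF i _ _ (by
              intro j hj
              rw [h1, Finset.mem_singleton] at hj
              subst hj
              rfl)
            have eG : ∀ a, G i (cc a y) = G i (cc a0 y) := fun a => hG i _ _ (by
              intro j hj
              rw [h1, Finset.mem_compl, Finset.mem_singleton] at hj
              obtain ⟨m, rfl⟩ := Fin.exists_succ_eq_of_ne_zero hj
              rfl)
            have e2 : ∀ a, h a * (F i (cc a y) * G i (cc a y)) =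
                (h a * F i (fun _ => a)) * G i (cc a0 y) := fun a => by rw [eF, eG]; ring
            simp only [e2]
            rw [← Finset.sum_mul]
            simp only [if_pos h1] at hhi
            rw [hhi, zero_mul]
          · have h2 : S i = {0}ᶜ := hi.resolve_left h1
            have eG : ∀ a, G i (cc a y) = G i (fun _ => a) := fun a => hG i _ _ (by
              intro j hj
              rw [h2, compl_compl, Finset.mem_singleton] at hj
              subst hj
              rfl)
            have eF : ∀ a, F i (cc a y) = F i (cc a0 y) := fun a => hF i _ _ (by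
              intro j hj
              rw [h2, Finset.mem_compl, Finset.mem_singleton] at hj
              obtain ⟨m, rfl⟩ := Fin.exists_succ_eq_of_ne_zero hj
              rfl)
            have e2 : ∀ a, h a * (F i (cc a y) * G i (cc a y)) =
                (h a * G i (fun _ => a)) * F i (cc a0 y) := fun a => by rw [eF, eG]; ring
            simp only [e2]
            rw [← Finset.sum_mul]
            simp only [if_neg h1] at hhi
            rw [hhi, zero_mul]
        have e3 : ∑ i : κ, ∑ a : N, h a * (F i (cc a y) * G i (cc a y)) =
            ∑ i : {i : κ // ¬ (S i = {0} ∨ S i = {0}ᶜ)},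
              ∑ a : N, h a * (F i (cc a y) * G i (cc a y)) := by
          rw [← Finset.sum_filter_add_sum_filter_not Finset.univ
            (fun i => S i = {0} ∨ S i = {0}ᶜ),
            Finset.sum_eq_zero (fun i hi => hK i (Finset.mem_filter.1 hi).2), zero_add]
          exact (Finset.sum_subtype _ (fun i => by simp) _)
        show ∑ a : N, h a * f (cc a y) = _
        rw [e1, e3]
        refine Finset.sum_congr rfl fun i _ => ?_
        by_cases h0 : (0 : Fin (d + 2)) ∈ S i
        · rw [if_pos h0, if_pos h0, Finset.sum_mul]
          refine Finset.sum_congr rfl fun a _ => ?_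
          have eG : G i (cc a y) = G i (cc a0 y) := hG i _ _ (by
            intro j hj
            rw [Finset.mem_compl] at hj
            have hj0 : j ≠ 0 := fun h => hj (h ▸ h0)
            obtain ⟨m, rfl⟩ := Fin.exists_succ_eq_of_ne_zero hj0
            rfl)
          rw [eG, mul_assoc]
        · rw [if_neg h0, if_neg h0, Finset.mul_sum]
          refine Finset.sum_congr rfl fun a _ => ?_
          have eF : F i (cc a y) = F i (cc a0 y) := hF i _ _ (by
            intro j hj
            have hj0 : j ≠ 0 := fun h => h0 (h ▸ hj)
            obtain ⟨m, rfl⟩ := Fin.exists_succ_eq_of_ne_zero hj0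
            rfl)
          rw [eF]
          ring
    omega

end Pool.Agent.W683.RP
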